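import Pool.Agent.ASD.Stmts3
import Pool.Agent.ASD.Stmts4
import Pool.Agent.Helper10_ASO.W12B
import Pool.Agent.Helper79_ASO.WTHD

/-!
# Squad ASD, row HKC: weighted numbers of commutators in terms of characters
-/

open scoped BigOperators

set_option linter.unusedSectionVars false

noncomputable section

namespace Pool.Agent.PP.SD.H51

open Pool.Agent.Helper51_AWC Pool.Agent.Helper79_WRA Pool.Agent.PP Pool.Agent.PP.KF
open Pool.Agent.PP.K9 Pool.Agent.PP.K9.H97 Pool.Agent.PP.H75 Pool.Agent.PP.T3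
open Pool.Agent.PP.SO Pool.Agent.PP.SO.H10W

attribute [local instance] Ideal.Quotient.field

theorem bh_supp {V₀ G : Type} [CommGroup V₀] [Group G] {M : Ideal (integralClosure ℤ ℂ)}
    [M.IsMaximal] (B : Bk (FF M) V₀ G) (W : Subgroup V₀) (s : G) (hs : s ∉ B.C W) :
    bh B W s = 0 := by
  unfold bh PP.ext0
  rw [dif_neg hs]

/-- Row HKC. -/
theorem hkc (fcd : FcdStmt) : HkcStmt := by
  classical
  intro ℓ _ M _ hM hℓ V₀ G _ _ _ _ E₀ hF B hB n m hPE A κ Φ hΦ1 hΦ2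
  have iG : Fintype G := Fintype.ofFinite G
  have iH : Fintype (B.C A) := Fintype.ofFinite (B.C A)
  have h0 := (fcd ℓ M hM V₀ G E₀ hF B hB A).1
  obtain ⟨K, hK⟩ : ∃ K, K = A ⊔ Subgroup.zpowers κ := ⟨_, rfl⟩
  rw [← hK]
  have hHc : (Fintype.card (B.C A) : ℂ) ≠ 0 := by
    exact_mod_cast Fintype.card_ne_zero
  have hNc : (Nat.card (B.C A) : ℂ) = Fintype.card (B.C A) := by rw [Nat.card_eq_fintype_card]
  -- the subgroups
  have hKA : B.C K ≤ B.C A := by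
    unfold Bk.C
    apply Subgroup.centralizer_le
    exact Subgroup.map_mono (hK ▸ le_sup_left)
  have hκ : B.i κ ∈ B.C A := by
    unfold Bk.C
    rw [Subgroup.mem_centralizer_iff]
    rintro _ ⟨a, -, rfl⟩
    rw [← map_mul, ← map_mul, mul_comm]
  -- the set `S`
  let S : Set (G × G) := {w | w.1 ∈ B.C A ∧ w.2 * w.1 * w.2⁻¹ ∈ B.C A}
  have hkap : ∀ w : G × G, SO.kap w.1 w.2 = w.1 * (w.2 * w.1 * w.2⁻¹)⁻¹ := by
    intro w
    unfold SO.kap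
    group
  have hSkap : ∀ w : G × G, w.1 ∈ B.C A → SO.kap w.1 w.2 ∈ B.C A → w ∈ S := by
    intro w h1 h2
    refine ⟨h1, ?_⟩
    rw [hkap] at h2
    have h3 := (B.C A).mul_mem ((B.C A).inv_mem h1) h2
    rw [inv_mul_cancel_left] at h3
    exact (B.C A).inv_mem_iff.1 h3
  have hSc : ∀ (z : B.C A) w, ec (B.C A) z w ∈ S ↔ w ∈ S := by
    intro z w
    have e1 : ∀ g : G, (z : G)⁻¹ * g * z ∈ B.C A ↔ g ∈ B.C A := by
      intro g
      rw [Subgroup.mul_mem_cancel_right _ z.2, Subgroup.mul_mem_cancel_left _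
        ((B.C A).inv_mem z.2)]
    have e2 : ((z : G)⁻¹ * w.2 * z) * ((z : G)⁻¹ * w.1 * z) * ((z : G)⁻¹ * w.2 * z)⁻¹ =
        (z : G)⁻¹ * (w.2 * w.1 * w.2⁻¹) * z := by group
    show ((z : G)⁻¹ * w.1 * z ∈ B.C A ∧
      ((z : G)⁻¹ * w.2 * z) * ((z : G)⁻¹ * w.1 * z) * ((z : G)⁻¹ * w.2 * z)⁻¹ ∈ B.C A) ↔ _
    rw [e2, e1, e1]
    rfl
  have hSm : ∀ (z : B.C A) w, em (B.C A) z w ∈ S ↔ w ∈ S := by
    intro z w
    have e2 : ((z : G) * w.2) * w.1 * ((z : G) * w.2)⁻¹ =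
        (z : G) * (w.2 * w.1 * w.2⁻¹) * (z : G)⁻¹ := by group
    show (w.1 ∈ B.C A ∧ ((z : G) * w.2) * w.1 * ((z : G) * w.2)⁻¹ ∈ B.C A) ↔ _
    rw [e2, Subgroup.mul_mem_cancel_right _ ((B.C A).inv_mem z.2),
      Subgroup.mul_mem_cancel_left _ z.2]
    rfl
  -- step 1: the left side as one sum
  have s0 : (Nat.card (B.C K) : ℂ)⁻¹ * ∑ᶠ t : G, bh B K t *
      ∑ᶠ w ∈ {w : G × G | SO.kap w.1 w.2 = B.i κ * t ∧ w.1 ∈ B.C A}, Φ (w.1 ^ m) w.2 =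
      (Nat.card (B.C K) : ℂ)⁻¹ * ∑ w : G × G, (if w ∈ S then
        bh B K ((B.i κ)⁻¹ * SO.kap w.1 w.2) * Φ (w.1 ^ m) w.2 else 0) := by
    rw [finsum_eq_sum_of_fintype]
    congr 1
    have e2 : ∀ t : G, ∑ᶠ w ∈ {w : G × G | SO.kap w.1 w.2 = B.i κ * t ∧ w.1 ∈ B.C A},
        Φ (w.1 ^ m) w.2 = ∑ w : G × G, if SO.kap w.1 w.2 = B.i κ * t ∧ w.1 ∈ B.C A then
          Φ (w.1 ^ m) w.2 else 0 := by
      intro t
      rw [finsum_mem_def, finsum_eq_sum_of_fintype]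
      refine Finset.sum_congr rfl fun w _ => ?_
      rw [Set.indicator_apply]
      rfl
    simp only [e2, Finset.mul_sum]
    rw [Finset.sum_comm]
    refine Finset.sum_congr rfl fun w _ => ?_
    rw [Finset.sum_eq_single ((B.i κ)⁻¹ * SO.kap w.1 w.2)]
    · by_cases hw : w ∈ S
      · rw [if_pos ⟨by group, hw.1⟩, if_pos hw]
      · rw [if_neg hw]
        by_cases h1 : w.1 ∈ B.C A
        · rw [bh_supp, zero_mul]
          intro h2
          apply hw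
          apply hSkap w h1
          have h3 := (B.C A).mul_mem hκ (hKA h2)
          rwa [mul_inv_cancel_left] at h3
        · rw [if_neg (fun h => h1 h.2), mul_zero]
    · intro t _ ht
      rw [if_neg, mul_zero]
      rintro ⟨h1, -⟩
      apply ht
      rw [h1]
      group
    · intro h
      exact absurd (Finset.mem_univ _) h
  -- step 2: the mean over the conjugates
  have s1 : (Nat.card (B.C K) : ℂ)⁻¹ * ∑ w : G × G, (if w ∈ S then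
        bh B K ((B.i κ)⁻¹ * SO.kap w.1 w.2) * Φ (w.1 ^ m) w.2 else 0) =
      (Fintype.card (B.C A) : ℂ)⁻¹ *
        ∑ w, (if w ∈ S then fc B A κ (SO.kap w.1 w.2) * Φ (w.1 ^ m) w.2 else 0) := by
    have e3 := avg (B.C A) S (ec (B.C A)) hSc
      (fun w => bh B K ((B.i κ)⁻¹ * SO.kap w.1 w.2) * Φ (w.1 ^ m) w.2)
    have e4 : ∑ w, (if w ∈ S then fc B A κ (SO.kap w.1 w.2) * Φ (w.1 ^ m) w.2 else 0) =
        (Nat.card (B.C K) : ℂ)⁻¹ *
        ∑ w, (if w ∈ S then ∑ z : B.C A, bh B K ((B.i κ)⁻¹ *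
          SO.kap (ec (B.C A) z w).1 (ec (B.C A) z w).2) *
            Φ ((ec (B.C A) z w).1 ^ m) (ec (B.C A) z w).2 else 0) := by
      rw [Finset.mul_sum]
      refine Finset.sum_congr rfl fun w _ => ?_
      split_ifs
      · unfold fc
        rw [← hK, finsum_eq_sum_of_fintype, mul_assoc, Finset.sum_mul]
        congr 1
        refine Finset.sum_congr rfl fun z _ => ?_
        have e5 : (z : G)⁻¹ * SO.kap w.1 w.2 * z =
            SO.kap ((z : G)⁻¹ * w.1 * z) ((z : G)⁻¹ * w.2 * z) := by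
          unfold SO.kap
          group
        have e6 : Φ (((z : G)⁻¹ * w.1 * z) ^ m) ((z : G)⁻¹ * w.2 * z) = Φ (w.1 ^ m) w.2 := by
          have e7 : ((z : G)⁻¹ * w.1 * z) ^ m = (z : G)⁻¹ * w.1 ^ m * ((z : G)⁻¹)⁻¹ := by
            have e8 := conj_pow (i := m) (a := (z : G)⁻¹) (b := w.1)
            rw [inv_inv] at e8 ⊢
            exact e8
          have e9 : (z : G)⁻¹ * w.2 * z = (z : G)⁻¹ * (w.2 * ((z : G)⁻¹)⁻¹) := by group
          rw [e9, hΦ2 _ _ _ ((B.C A).inv_mem z.2), e7, hΦ1 _ _ _ ((B.C A).inv_mem z.2)]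
        show _ = bh B K ((B.i κ)⁻¹ * SO.kap ((z : G)⁻¹ * w.1 * z) ((z : G)⁻¹ * w.2 * z)) *
          Φ (((z : G)⁻¹ * w.1 * z) ^ m) ((z : G)⁻¹ * w.2 * z)
        rw [← e5, e6]
      · rw [mul_zero]
    rw [e4, ← e3]
    field_simp
  -- step 3: the characters
  obtain ⟨X, hX⟩ : ∃ X, X = (H79.ch_finite B A).toFinset := ⟨_, rfl⟩
  have hXm : ∀ χ, χ ∈ X ↔ χ ∈ Ch B A := by
    intro χ
    rw [hX, Set.Finite.mem_toFinset]
  have s4 : ∀ g, fc B A κ g = ∑ χ ∈ X, cv (fc B A κ) χ * (χ 1 / Nat.card (B.C A)) * χ g⁻¹ := by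
    intro g
    rw [hX]
    exact H79.fc_expand B A κ (fun χ h1 h2 h3 => h0 χ h1 h2 h3 κ) g
  have s5 : ∀ χ ∈ X, ∑ w, (if w ∈ S then χ (SO.kap w.1 w.2)⁻¹ * Φ (w.1 ^ m) w.2 else 0) =
      (χ 1)⁻¹ * ∑ w, (if w ∈ S then
        Φ (w.1 ^ m) w.2 * (χ (w.2 * w.1 * w.2⁻¹) * χ w.1⁻¹) else 0) := by
    intro χ hχ
    have n1 : χ 1 ≠ 0 := H79.one_sub _ ((hXm χ).1 hχ).2.1
    have e1 := avg (B.C A) S (em (B.C A)) hSm
      (fun w => χ (SO.kap w.1 w.2)⁻¹ * Φ (w.1 ^ m) w.2)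
    have e2 : ∑ w, (if w ∈ S then ∑ z : B.C A,
        χ (SO.kap (em (B.C A) z w).1 (em (B.C A) z w).2)⁻¹ *
          Φ ((em (B.C A) z w).1 ^ m) (em (B.C A) z w).2 else 0) =
        ∑ w, (if w ∈ S then (Fintype.card (B.C A) : ℂ) *
          (χ (w.2 * w.1 * w.2⁻¹) * χ w.1⁻¹ / χ 1) * Φ (w.1 ^ m) w.2 else 0) := by
      refine Finset.sum_congr rfl fun w _ => ?_
      by_cases hw : w ∈ S
      · rw [if_pos hw, if_pos hw]
        have h1 := ch_avg ((hXm χ).1 hχ) hw.2 ((B.C A).inv_mem hw.1)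
        rw [← h1, Finset.sum_mul]
        refine Finset.sum_congr rfl fun z _ => ?_
        have e3 : (SO.kap w.1 ((z : G) * w.2))⁻¹ =
            (z : G) * (w.2 * w.1 * w.2⁻¹) * (z : G)⁻¹ * w.1⁻¹ := by
          unfold SO.kap
          group
        show χ (SO.kap w.1 ((z : G) * w.2))⁻¹ * Φ (w.1 ^ m) ((z : G) * w.2) = _
        rw [e3, hΦ2 _ _ _ z.2]
      · rw [if_neg hw, if_neg hw]
    rw [e2] at e1
    have e3 : ∑ w, (if w ∈ S then (Fintype.card (B.C A) : ℂ) *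
          (χ (w.2 * w.1 * w.2⁻¹) * χ w.1⁻¹ / χ 1) * Φ (w.1 ^ m) w.2 else 0) =
        (Fintype.card (B.C A) : ℂ) * ((χ 1)⁻¹ *
        ∑ w, (if w ∈ S then
          Φ (w.1 ^ m) w.2 * (χ (w.2 * w.1 * w.2⁻¹) * χ w.1⁻¹) else 0)) := by
      rw [Finset.mul_sum, Finset.mul_sum]
      refine Finset.sum_congr rfl fun w _ => ?_
      split_ifs
      · field_simp
      · simp
    rw [e3] at e1
    exact mul_left_cancel₀ hHc e1
  have s6 : ∑ w, (if w ∈ S then fc B A κ (SO.kap w.1 w.2) * Φ (w.1 ^ m) w.2 else 0) =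
      (Fintype.card (B.C A) : ℂ)⁻¹ * ∑ χ ∈ X, cv (fc B A κ) χ * ∑ w, (if w ∈ S then
        Φ (w.1 ^ m) w.2 * (χ (w.2 * w.1 * w.2⁻¹) * χ w.1⁻¹) else 0) := by
    have e1 : ∀ w : G × G, (if w ∈ S then fc B A κ (SO.kap w.1 w.2) * Φ (w.1 ^ m) w.2 else 0) =
        ∑ χ ∈ X, cv (fc B A κ) χ * (χ 1 / Nat.card (B.C A)) *
          (if w ∈ S then χ (SO.kap w.1 w.2)⁻¹ * Φ (w.1 ^ m) w.2 else 0) := by
      intro w
      split_ifs with hw
      · rw [s4, Finset.sum_mul]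
        refine Finset.sum_congr rfl fun χ _ => ?_
        ring
      · simp
    simp only [e1]
    rw [Finset.sum_comm, Finset.mul_sum]
    refine Finset.sum_congr rfl fun χ hχ => ?_
    have n1 : χ 1 ≠ 0 := H79.one_sub _ ((hXm χ).1 hχ).2.1
    rw [← Finset.mul_sum, s5 χ hχ, hNc]
    field_simp
  rw [s0, s1, s6, hNc]
  rw [finsum_mem_def]
  have s7 : ∀ χ : G → ℂ, (∑ᶠ w ∈ {w : G × G | w.1 ∈ B.C A ∧ w.2 * w.1 * w.2⁻¹ ∈ B.C A},
      Φ (w.1 ^ m) w.2 * (χ (w.2 * w.1 * w.2⁻¹) * χ w.1⁻¹)) = ∑ w, (if w ∈ S then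
        Φ (w.1 ^ m) w.2 * (χ (w.2 * w.1 * w.2⁻¹) * χ w.1⁻¹) else 0) := by
    intro χ
    rw [finsum_mem_def, finsum_eq_sum_of_fintype]
    refine Finset.sum_congr rfl fun w _ => ?_
    rw [Set.indicator_apply]
  have s8 : ∑ᶠ χ : G → ℂ, Set.indicator (Ch B A) (fun χ => cv (fc B A κ) χ *
      ∑ᶠ w ∈ {w : G × G | w.1 ∈ B.C A ∧ w.2 * w.1 * w.2⁻¹ ∈ B.C A},
        Φ (w.1 ^ m) w.2 * (χ (w.2 * w.1 * w.2⁻¹) * χ w.1⁻¹)) χ =
      ∑ χ ∈ X, cv (fc B A κ) χ * ∑ w, (if w ∈ S then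
        Φ (w.1 ^ m) w.2 * (χ (w.2 * w.1 * w.2⁻¹) * χ w.1⁻¹) else 0) := by
    rw [← finsum_mem_def, finsum_mem_eq_finite_toFinset_sum _ (H79.ch_finite B A), hX]
    refine Finset.sum_congr rfl fun χ _ => ?_
    rw [s7]
  rw [s8]
  ring

end Pool.Agent.PP.SD.H51
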